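import Mathlib

namespace Pool.Agent.Results.MP_eadfc1_pr.Erlang

open Finset

/-- `hit P y k x = P_x(τ(y) = k)`: total weight of the paths `x = w 0, …, w k = y`
that avoid `y` before time `k`. -/
noncomputable def hit {n : ℕ} (P : Matrix (Fin n) (Fin n) ℝ) (y : Fin n) (k : ℕ) (x : Fin n) : ℝ :=
  ∑ w : Fin (k + 1) → Fin n with w 0 = x ∧ w (Fin.last k) = y ∧ ∀ i : Fin k, w i.castSucc ≠ y,
    ∏ i : Fin k, P (w i.castSucc) (w i.succ)

lemma hit0 {n : ℕ} (P : Matrix (Fin n) (Fin n) ℝ) (y x : Fin n) :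
    hit P y 0 x = if x = y then 1 else 0 := by
  rw [hit, sum_filter, ← (Equiv.funUnique (Fin 1) (Fin n)).symm.sum_comp]
  simp only [Equiv.funUnique_symm_apply, uniqueElim_const, IsEmpty.forall_iff, and_true,
    univ_eq_empty, prod_empty]
  rw [sum_eq_single x (fun b _ h => if_neg fun h' => h h'.1) (by simp)]
  simp

lemma hitS {n : ℕ} (P : Matrix (Fin n) (Fin n) ℝ) (y x : Fin n) (k : ℕ) :
    hit P y (k + 1) x = if x = y then 0 else ∑ z, P x z * hit P y k z := by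
  rw [hit, sum_filter, ← (Fin.consEquiv fun _ => Fin n).sum_comp, Fintype.sum_prod_type,
    sum_eq_single x (fun b _ h => sum_eq_zero fun _ _ => if_neg fun h' => h h'.1) (by simp)]
  simp only [Fin.consEquiv_apply, Fin.cons_zero, true_and, Fin.forall_fin_succ, Fin.castSucc_zero,
    Fin.prod_univ_succ, ← Fin.succ_last, Fin.cons_succ, ← Fin.succ_castSucc]
  split_ifs with h
  · simp [h]
  · simp only [hit, sum_filter, mul_sum]
    rw [sum_comm]
    refine sum_congr rfl fun w _ => ?_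
    rw [sum_eq_single (w 0) (fun b _ h => by rw [if_neg fun h' => h h'.1.symm, mul_zero]) (by simp)]
    simp [h]

noncomputable def Q (m : ℕ) (p : ℝ) : Matrix (Fin (m + 1)) (Fin (m + 1)) ℝ := fun i j =>
  (if j = i then 1 - p else 0) + if j = ⟨i - 1, by omega⟩ then p else 0

lemma cheb (m : ℕ) (p a : ℝ) (h0 : 0 ≤ p) (h1 : p ≤ 1) (ha : 0 ≤ a) (k : ℕ) : ∀ j : Fin (m + 1),
    a ^ 2 * ∑ i ∈ range (k + 1), hit (Q m p) 0 i j ≤ (k * p - j + a) ^ 2 + k * p * (1 - p) ∧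
    a ^ 2 * (1 - ∑ i ∈ range (k + 1), hit (Q m p) 0 i j) ≤
      (k * p - j - a) ^ 2 + k * p * (1 - p) := by
  induction k with
  | zero =>
    intro j
    simp only [zero_add, range_one, sum_singleton, hit0]
    split_ifs with h
    · simp [h, sq_nonneg]
    · have := Nat.cast_nonneg (α := ℝ) j
      simp only [mul_zero, Nat.cast_zero, zero_mul, sub_zero, mul_one]
      constructor <;> nlinarith [sq_nonneg (0 - (j : ℝ) + a)]
  | succ k ih =>
    intro j
    rw [sum_range_succ']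
    simp only [hitS, hit0]
    have hk : 0 ≤ ((k + 1 : ℕ) : ℝ) * p := by positivity
    have hk' := mul_nonneg hk (sub_nonneg.2 h1)
    split_ifs with h
    · simp only [h, sum_const_zero, zero_add, mul_one, sub_self, mul_zero, Fin.val_zero,
        Nat.cast_zero, sub_zero]
      constructor
      · nlinarith
      · positivity
    · have hj : 1 ≤ (j : ℕ) := Nat.one_le_iff_ne_zero.2 fun e => h (Fin.ext e)
      obtain ⟨a1, a2⟩ := ih j
      obtain ⟨b1, b2⟩ := ih ⟨j - 1, by omega⟩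
      simp only [Q, add_mul, ite_mul, zero_mul, sum_add_distrib, sum_ite_eq', mem_univ, if_true,
        ← mul_sum, add_zero]
      simp only [Nat.cast_sub hj] at b1 b2
      have c1 := mul_le_mul_of_nonneg_left a1 (sub_nonneg.2 h1)
      have c2 := mul_le_mul_of_nonneg_left a2 (sub_nonneg.2 h1)
      have d1 := mul_le_mul_of_nonneg_left b1 h0
      have d2 := mul_le_mul_of_nonneg_left b2 h0
      push_cast at *
      constructor <;> linarith

theorem result (C : ℝ) : ∃ (n : ℕ) (P : Matrix (Fin n) (Fin n) ℝ) (x y : Fin n) (t : ℕ),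
    (∀ i j, 0 ≤ P i j) ∧ (∀ i, ∑ j, P i j = 1) ∧ n < t ∧
      C * n / t < ∑ k ∈ Icc t (t + n), hit P y k x := by
  obtain ⟨K, hK⟩ := exists_nat_gt (max (4 * C) 3)
  rw [max_lt_iff] at hK
  have hK3 : 3 < K := by exact_mod_cast hK.2
  have hK0 : (0 : ℝ) < K := by linarith [hK.2]
  have h0 : (0 : ℝ) ≤ 1 / K := by positivity
  have h1 : (1 : ℝ) / K ≤ 1 := by rw [div_le_one hK0]; linarith [hK.2]
  obtain ⟨s, hs⟩ : ∃ s : ℕ, s + 16 * K * K = 32 * K ^ 2 * K := ⟨_, Nat.sub_add_cancel (by nlinarith)⟩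
  have hs' : (s : ℝ) = 32 * K ^ 2 * K - 16 * K * K := by rw [eq_sub_iff_add_eq]; exact_mod_cast hs
  refine ⟨32 * K ^ 2 + 1, Q _ (1 / K), Fin.last _, 0, s + 1, fun i j => ?_, fun i => ?_,
    by nlinarith, ?_⟩
  · unfold Q; split_ifs <;> linarith
  · simp [Q, sum_add_distrib]
  have a := (cheb (32 * K ^ 2) _ (16 * K) h0 h1 (by positivity) s (Fin.last _)).1
  have b := (cheb (32 * K ^ 2) _ (16 * K + 2 / K) h0 h1 (by positivity)
    (s + 1 + (32 * K ^ 2 + 1)) (Fin.last _)).2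
  rw [← Ico_add_one_right_eq_Icc, sum_Ico_eq_sub _ (by omega)]
  have e1 : (s : ℝ) * (1 / K) = 32 * K ^ 2 - 16 * K := by rw [hs']; field_simp
  have e2 : ((s + 1 + (32 * K ^ 2 + 1) : ℕ) : ℝ) * (1 / K) = 32 * K ^ 2 + 16 * K + 2 / K := by
    push_cast; rw [hs']; field_simp; ring
  rw [e1] at a
  rw [e2] at b
  simp only [Fin.val_last] at a b
  push_cast at a b ⊢
  set A := ∑ i ∈ range (s + 1), hit (Q (32 * K ^ 2) (1 / K)) 0 i (Fin.last _)
  set B := ∑ i ∈ range (s + 1 + (32 * K ^ 2 + 1) + 1), hit (Q (32 * K ^ 2) (1 / K)) 0 i (Fin.last _)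
  have h2 : (2 : ℝ) / K = 2 * (1 / K) := by ring
  rw [h2] at b
  set u : ℝ := 1 / K
  have hk := hK.2
  have hA : A ≤ 1 / 8 := by
    by_contra h
    nlinarith [mul_nonneg h0 (show (0 : ℝ) ≤ 32 * K ^ 2 - 16 * K by nlinarith)]
  have hB : 1 - B ≤ 1 / 4 := by
    by_contra h
    have : (16 * K + 2 * u) ^ 2 * (1 / 4) ≤ (16 * K + 2 * u) ^ 2 * (1 - B) := by
      gcongr; linarith
    nlinarith [mul_nonneg h0 (show (0 : ℝ) ≤ 32 * K ^ 2 + 16 * K + 2 * u by positivity),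
      mul_nonneg h0 hK0.le]
  rw [div_lt_iff₀ (by positivity), hs']
  have : C * (32 * K ^ 2 + 1) ≤ K / 4 * (32 * K ^ 2 + 1) := by gcongr; linarith [hK.1]
  have h3 : (0 : ℝ) < 32 * K ^ 2 * K - 16 * K * K + 1 := by nlinarith
  nlinarith [mul_le_mul_of_nonneg_right (show 5 / 8 ≤ B - A by linarith) h3.le]

end Pool.Agent.Results.MP_eadfc1_pr.Erlang
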